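import Pool.Agent.H61.EE.Base

/-!
# MP_70ba79_ag: module COM of the board `ee_modules`
-/

set_option autoImplicit false

namespace Pool.Agent.H61.EE

open MvPolynomial SC Pool.Agent.H27.LV Pool.Agent.H17.VG Pool.Agent.H30.EE

section Quot

variable {K : Type} [Field K] {n a b c : ℕ}

/-- multiplication by a form, as a map between the spaces of forms -/
noncomputable def mulSd (h : b + a = c) (m : MvPolynomial (Fin (n + 1)) K)
    (hm : m.IsHomogeneous b) : ↥(Sd K n a) →ₗ[K] ↥(Sd K n c) :=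
  ((LinearMap.mulLeft K m).comp (Sd K n a).subtype).codRestrict (Sd K n c) (by
    intro G
    have := hm.mul ((mem_homogeneousSubmodule a G.1).1 G.2)
    rw [h] at this
    exact this)

lemma mulSd_coe (h : b + a = c) (m : MvPolynomial (Fin (n + 1)) K) (hm : m.IsHomogeneous b)
    (G : ↥(Sd K n a)) : ((mulSd h m hm G : ↥(Sd K n c)) : MvPolynomial (Fin (n + 1)) K) = m * G.1 :=
  rfl

lemma map_range_mulSd (h : b + a = c) (m : MvPolynomial (Fin (n + 1)) K)
    (hm : m.IsHomogeneous b) :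
    (LinearMap.range (mulSd h m hm)).map (Sd K n c).subtype = mulW m (Sd K n a) := by
  apply le_antisymm
  · rintro _ ⟨_, ⟨G, rfl⟩, rfl⟩
    exact ⟨G.1, G.2, rfl⟩
  · rintro _ ⟨G, hG, rfl⟩
    exact ⟨mulSd h m hm ⟨G, hG⟩, ⟨⟨G, hG⟩, rfl⟩, rfl⟩

lemma map_sup_eq (h : b + a = c) (m : MvPolynomial (Fin (n + 1)) K) (hm : m.IsHomogeneous b)
    {N : Submodule K (MvPolynomial (Fin (n + 1)) K)} (hN : N ≤ Sd K n c) :
    (N.comap (Sd K n c).subtype ⊔ LinearMap.range (mulSd h m hm)).map (Sd K n c).subtype =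
      N ⊔ mulW m (Sd K n a) := by
  rw [Submodule.map_sup, map_range_mulSd, Submodule.map_comap_subtype, inf_eq_right.2 hN]

/-- rank of the multiplication modulo `N` -/
lemma rank_E (h : b + a = c) (m : MvPolynomial (Fin (n + 1)) K) (hm : m.IsHomogeneous b)
    {N : Submodule K (MvPolynomial (Fin (n + 1)) K)} (hN : N ≤ Sd K n c) :
    Module.finrank K ↥(LinearMap.range ((N.comap (Sd K n c).subtype).mkQ.comp (mulSd h m hm))) +
      Module.finrank K ↥(N.comap (Sd K n c).subtype) =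
    Module.finrank K ↥(N ⊔ mulW m (Sd K n a)) := by
  rw [LinearMap.range_comp, rank_mkQ, ← map_sup_eq h m hm hN, Submodule.finrank_map_subtype_eq]

lemma mem_E (h : b + a = c) (m : MvPolynomial (Fin (n + 1)) K) (hm : m.IsHomogeneous b)
    {N : Submodule K (MvPolynomial (Fin (n + 1)) K)} (hN : N ≤ Sd K n c) (w : ↥(Sd K n c)) :
    (N.comap (Sd K n c).subtype).mkQ w ∈
      LinearMap.range ((N.comap (Sd K n c).subtype).mkQ.comp (mulSd h m hm)) ↔
    (w : MvPolynomial (Fin (n + 1)) K) ∈ N ⊔ mulW m (Sd K n a) := by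
  rw [LinearMap.range_comp, ← map_sup_eq h m hm hN]
  constructor
  · intro hw
    have h1 : w ∈ Submodule.comap (N.comap (Sd K n c).subtype).mkQ
        ((LinearMap.range (mulSd h m hm)).map (N.comap (Sd K n c).subtype).mkQ) := hw
    rw [Submodule.comap_map_mkQ] at h1
    exact ⟨w, h1, rfl⟩
  · rintro ⟨w', hw', h1⟩
    have h2 : w' = w := Subtype.ext h1
    subst h2
    have h1 : w' ∈ Submodule.comap (N.comap (Sd K n c).subtype).mkQ
        ((LinearMap.range (mulSd h m hm)).map (N.comap (Sd K n c).subtype).mkQ) := by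
      rw [Submodule.comap_map_mkQ]
      exact hw'
    exact h1

end Quot

theorem pf_COM (_hHG : T_HG) (_hDSP : T_DSP) (hJML : T_JML) (hJSB : T_JSB) (hLNE : T_LNE)
    (hPEN : T_PEN) (hSEM : T_SEM) (hPRI : T_PRI) : T_COM := by
  intro k K _ _ _ _ _ _ htr n a x μ J J1 l0 l1 l hx ha hJ hJ1 hmax hl1 hli JL hJL0 hJL
  have hJLle : JL ≤ Sd K 2 a := hJL.le.trans (Md_le a _)
  have hJ1le : J1 ≤ Sd K n (2 * a - 1) := hJ1.le.trans (Md_le _ _)
  have : Infinite k := IsAlgClosed.instInfinite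
  have : Infinite K := Infinite.of_injective _ (algebraMap k K).injective
  rcases hPRI K 2 a JL hJLle hJL0 with h | ⟨G, hG, G', hG', hG0, hG'0, hrel⟩
  · exact h
  exfalso
  have hGh : G.IsHomogeneous a := (mem_homogeneousSubmodule a G).1 (hJLle hG)
  have hGh' : G'.IsHomogeneous a := (mem_homogeneousSubmodule a G').1 (hJLle hG')
  obtain ⟨lc, hlc⟩ := hLNE k K a G G' ha hGh hGh' hG0 hG'0 hrel
  have hfin := hPEN k K a G G' lc (Pi.single 0 1) ha hGh hGh' hlc
  -- the substitution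
  set ll : Fin 3 → Fin (n + 1) → k := ![l0, l1, l] with hll
  set lst : Fin (n + 1) → k := ∑ i, lc i • ll i with hlst
  have hy : (![el l0 x, el l1 x, el l x] : Fin 3 → K) = fun i => el (ll i) x := by
    funext i
    fin_cases i <;> rfl
  rw [hy] at hJL
  have hsub : ∀ Q ∈ JL, sbs (m := 2) (fun i => ul K (ll i)) Q ∈ J := fun Q hQ =>
    hJSB k K htr 2 n a x μ ll JL J hli hJL hJ ⟨Q, hQ, rfl⟩
  have h2a : a + (a - 1) = 2 * a - 1 := by omega
  have hprod : ∀ A : MvPolynomial (Fin (2 + 1)) K, A.IsHomogeneous (a - 1) → ∀ Q ∈ JL,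
      sbs (m := 2) (fun i => ul K (ll i)) (Q * A) ∈ J1 := by
    intro A hA Q hQ
    rw [map_mul, mul_comm]
    refine mul_mem_J (k := k) (b := a - 1) ?_ (sbs_homog _ hA) (hsub Q hQ)
    have hJ1' : IsJ (dS k n (a + (a - 1))) μ (Md (a + (a - 1)) x) J1 := by
      rw [h2a]
      exact hJ1
    exact hJML k K htr n a (a - 1) x μ J J1 hx hJ hJ1'
  have hmem : ∀ t : k, (mulW (n := 2) G (Sd K 2 (a - 1)) ⊔ mulW (n := 2) G' (Sd K 2 (a - 1)) ⊔
      mulW (n := 2) (lin (ul K ((Pi.single 0 1 : Fin 3 → k) + t • lc))) (Sd K 2 (2 * a - 2)) =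
        Sd K 2 (2 * a - 1)) →
      lin (ul K l1) ^ (2 * a - 1) ∈ J1 ⊔ mulW (lin (ul K l0) + C (algebraMap k K t) *
        lin (ul K lst)) (Sd K n (2 * a - 2)) := by
    intro t ht
    have h1 : (X 1 ^ (2 * a - 1) : MvPolynomial (Fin (2 + 1)) K) ∈ Sd K 2 (2 * a - 1) := by
      have := (isHomogeneous_X K (1 : Fin (2 + 1))).pow (2 * a - 1)
      rw [one_mul] at this
      exact this
    rw [← ht] at h1
    obtain ⟨u, hu, v, hv, huv⟩ := Submodule.mem_sup.1 h1
    obtain ⟨u1, hu1, u2, hu2, hu12⟩ := Submodule.mem_sup.1 hu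
    obtain ⟨A, hA, rfl⟩ := hu1
    obtain ⟨B, hB, rfl⟩ := hu2
    obtain ⟨Q, hQ, rfl⟩ := hv
    have h2 : lin (ul K l1) ^ (2 * a - 1) = sbs (m := 2) (fun i => ul K (ll i))
        (X 1 ^ (2 * a - 1)) := by
      rw [map_pow, sbs_X]
      rfl
    rw [h2, ← huv, ← hu12, map_add, map_add]
    refine Submodule.add_mem_sup (Submodule.add_mem _ ?_ ?_) ?_
    · exact hprod A ((mem_homogeneousSubmodule _ A).1 hA) G hG
    · exact hprod B ((mem_homogeneousSubmodule _ B).1 hB) G' hG'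
    · refine ⟨sbs (m := 2) (fun i => ul K (ll i)) Q,
        sbs_homog _ ((mem_homogeneousSubmodule _ Q).1 hQ), ?_⟩
      rw [LinearMap.mulLeft_apply, LinearMap.mulLeft_apply, map_mul]
      congr 1
      rw [ul_add_smul, lin_single, map_add, map_mul, sbs_X, sbs_lin, lin_sum]
      unfold sbs
      rw [aeval_C]
      rfl
  -- semicontinuity
  have hca : 1 + (2 * a - 2) = 2 * a - 1 := by omega
  have hom0 : (lin (ul K l0)).IsHomogeneous 1 := isHomogeneous_lin _
  have hom1 : (lin (ul K lst)).IsHomogeneous 1 := isHomogeneous_lin _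
  have homt : ∀ t : k, (lin (ul K l0) + C (algebraMap k K t) * lin (ul K lst)).IsHomogeneous 1 := by
    intro t
    rw [← ul_add_smul]
    exact isHomogeneous_lin _
  have hE : ∀ t : k, ((J1.comap (Sd K n (2 * a - 1)).subtype).mkQ.comp (mulSd hca _ hom0)) +
      algebraMap k K t • ((J1.comap (Sd K n (2 * a - 1)).subtype).mkQ.comp (mulSd hca _ hom1)) =
      (J1.comap (Sd K n (2 * a - 1)).subtype).mkQ.comp (mulSd hca _ (homt t)) := by
    intro t
    ext Q
    rw [LinearMap.add_apply, LinearMap.smul_apply, LinearMap.comp_apply, LinearMap.comp_apply,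
      LinearMap.comp_apply, ← map_smul, ← map_add]
    congr 1
    apply Subtype.ext
    rw [Submodule.coe_add, Submodule.coe_smul, mulSd_coe, mulSd_coe, mulSd_coe, smul_eq_C_mul]
    ring
  have hw : lin (ul K l1) ^ (2 * a - 1) ∈ Sd K n (2 * a - 1) := by
    have := (isHomogeneous_lin (ul K l1)).pow (2 * a - 1)
    rw [one_mul] at this
    exact this
  have key := hSEM k K ↥(Sd K n (2 * a - 2))
    (↥(Sd K n (2 * a - 1)) ⧸ J1.comap (Sd K n (2 * a - 1)).subtype)
    ((J1.comap (Sd K n (2 * a - 1)).subtype).mkQ.comp (mulSd hca _ hom0))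
    ((J1.comap (Sd K n (2 * a - 1)).subtype).mkQ.comp (mulSd hca _ hom1))
    ((J1.comap (Sd K n (2 * a - 1)).subtype).mkQ ⟨_, hw⟩) ?_ ?_
  · rw [mem_E hca _ hom0 hJ1le] at key
    exact hl1 key
  · intro t
    rw [hE t]
    have h1 := rank_E hca _ (homt t) hJ1le
    have h2 := rank_E hca _ hom0 hJ1le
    have h3 := hmax (l0 + t • lst)
    rw [ul_add_smul] at h3
    omega
  · refine (hfin.infinite_compl).mono ?_
    intro t ht
    have ht' : mulW (n := 2) G (Sd K 2 (a - 1)) ⊔ mulW (n := 2) G' (Sd K 2 (a - 1)) ⊔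
      mulW (n := 2) (lin (ul K ((Pi.single 0 1 : Fin 3 → k) + t • lc))) (Sd K 2 (2 * a - 2)) =
        Sd K 2 (2 * a - 1) := by
      by_contra h
      exact ht h
    have h4 := hmem t ht'
    change _ ∈ LinearMap.range _
    rw [hE t, mem_E hca _ (homt t) hJ1le]
    exact h4

end Pool.Agent.H61.EE
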