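import Pool.Agent.H30.EE.TargetsP

/-!
# MP_70ba79_ag: small lemmas on forms for the modules COM and PP3 of the board `ee_modules`
-/

set_option autoImplicit false

namespace Pool.Agent.H61.EE

open MvPolynomial SC Pool.Agent.H27.LV Pool.Agent.H17.VG Pool.Agent.H30.EE

variable {k K : Type} [Field k] [Field K] [Algebra k K] {n m : ℕ}

instance instFinSd (n d : ℕ) : FiniteDimensional K ↥(Sd K n d) :=
  Module.Finite.iff_fg.2 (homogeneousSubmodule_fg (Fin (n + 1)) K d)

lemma fin_of_le {n d : ℕ} {W : Submodule K (MvPolynomial (Fin (n + 1)) K)} (h : W ≤ Sd K n d) :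
    FiniteDimensional K ↥W :=
  Submodule.finiteDimensional_of_le h

lemma Md_le (d : ℕ) (x : Fin (n + 1) → K) : Md d x ≤ Sd K n d := inf_le_left

lemma mulW_le {a b : ℕ} {G : MvPolynomial (Fin (n + 1)) K} (hG : G.IsHomogeneous b)
    {W : Submodule K (MvPolynomial (Fin (n + 1)) K)} (hW : W ≤ Sd K n a) :
    mulW G W ≤ Sd K n (b + a) := by
  rintro _ ⟨w, hw, rfl⟩
  exact hG.mul ((mem_homogeneousSubmodule a w).1 (hW hw))

lemma up_mono (f : Fin (n + 1) → ℕ) : up K (mono k f) = mono K f := by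
  unfold up mono
  rw [map_monomial, map_one]

lemma lin_up (l : Fin (n + 1) → k) : lin (ul K l) = up K (lin l) := by
  unfold lin up ul
  rw [map_sum]
  refine Finset.sum_congr rfl fun j _ => ?_
  rw [map_mul, map_C, map_X]

lemma ul_add_smul (l l' : Fin (n + 1) → k) (t : k) :
    lin (ul K (l + t • l')) = lin (ul K l) + C (algebraMap k K t) * lin (ul K l') := by
  unfold lin ul
  rw [Finset.mul_sum, ← Finset.sum_add_distrib]
  refine Finset.sum_congr rfl fun j _ => ?_
  rw [Pi.add_apply, Pi.smul_apply, smul_eq_mul, map_add, map_mul, C_add, C_mul]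
  ring

lemma lin_single (i : Fin (n + 1)) : lin (ul K (Pi.single i (1 : k))) = X i := by
  classical
  unfold lin ul
  rw [Finset.sum_eq_single i]
  · rw [Pi.single_eq_same, map_one, C_1, one_mul]
  · intro j _ hj
    rw [Pi.single_eq_of_ne hj, map_zero, C_0, zero_mul]
  · simp

/-- the substitution maps forms to forms -/
lemma sbs_homog {m : ℕ} (l : Fin (m + 1) → Fin (n + 1) → K) {d : ℕ}
    {G : MvPolynomial (Fin (m + 1)) K} (hG : G.IsHomogeneous d) : (sbs l G).IsHomogeneous d := by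
  have h := hG.aeval (fun i => lin (l i)) (fun i => isHomogeneous_lin (l i))
  rwa [one_mul] at h

lemma sbs_X {m : ℕ} (l : Fin (m + 1) → Fin (n + 1) → K) (i : Fin (m + 1)) :
    sbs l (X i) = lin (l i) := by
  unfold sbs
  rw [aeval_X]

lemma sbs_lin {m : ℕ} (l : Fin (m + 1) → Fin (n + 1) → K) (c : Fin (m + 1) → K) :
    sbs l (lin c) = ∑ i, C (c i) * lin (l i) := by
  unfold lin
  rw [map_sum]
  refine Finset.sum_congr rfl fun i _ => ?_
  rw [map_mul, sbs_X]
  unfold sbs
  rw [aeval_C]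
  rfl

lemma lin_sum {m : ℕ} (l : Fin (m + 1) → Fin (n + 1) → k) (c : Fin (m + 1) → k) :
    lin (ul K (∑ i, c i • l i)) = ∑ i, C (algebraMap k K (c i)) * lin (ul K (l i)) := by
  unfold lin ul
  simp only [Finset.mul_sum]
  rw [Finset.sum_comm]
  refine Finset.sum_congr rfl fun j _ => ?_
  rw [Finset.sum_apply, map_sum, map_sum, Finset.sum_mul]
  refine Finset.sum_congr rfl fun i _ => ?_
  rw [Pi.smul_apply, smul_eq_mul, map_mul, C_mul, mul_assoc]

/-- products of forms with elements of `J` -/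
lemma mul_mem_J {b : ℕ} {J J' : Submodule K (MvPolynomial (Fin (n + 1)) K)}
    (h : ∀ G : MvPolynomial (Fin (n + 1)) k, G ≠ 0 → G.IsHomogeneous b → mulW (up K G) J ≤ J')
    {H G : MvPolynomial (Fin (n + 1)) K} (hH : H.IsHomogeneous b) (hG : G ∈ J) : H * G ∈ J' := by
  rw [dec hH, Finset.sum_mul]
  refine Submodule.sum_mem _ fun p _ => ?_
  rw [mul_assoc, ← smul_eq_C_mul]
  refine Submodule.smul_mem _ _ ?_
  rw [← up_mono (k := k)]
  refine h _ ?_ (isHomogeneous_mono p) ⟨G, hG, rfl⟩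
  unfold mono
  rw [Ne, monomial_eq_zero]
  exact one_ne_zero

/-- rank of a map modulo a subspace -/
lemma rank_mkQ {V : Type} [AddCommGroup V] [Module K V] [FiniteDimensional K V]
    (N P : Submodule K V) :
    Module.finrank K ↥(P.map N.mkQ) + Module.finrank K ↥N = Module.finrank K ↥(N ⊔ P) := by
  have h1 : (N ⊔ P).map N.mkQ = P.map N.mkQ := by
    rw [Submodule.map_sup, Submodule.mkQ_map_self, bot_sup_eq]
  have h2 := LinearMap.finrank_range_add_finrank_ker (N.mkQ.domRestrict (N ⊔ P))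
  rw [LinearMap.range_domRestrict, h1, LinearMap.ker_domRestrict, Submodule.ker_mkQ] at h2
  rw [← h2]
  congr 1
  exact (LinearEquiv.finrank_eq (Submodule.submoduleOfEquivOfLe (le_sup_left : N ≤ N ⊔ P))).symm

end Pool.Agent.H61.EE
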