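import Pool.Agent.H61.EE.Base
import Pool.Agent.H79.EE.LPB

/-!
# MP_70ba79_ag: module PP3 (Proposition 3) of the board `ee_modules`
-/

set_option autoImplicit false

namespace Pool.Agent.H61.EE

open MvPolynomial SC Pool.Agent.H27.LV Pool.Agent.H17.VG Pool.Agent.H30.EE

lemma IsJ_unique {K V : Type} [Field K] [AddCommGroup V] [Module K V] {φ : Submodule K V → ℤ}
    {μ : ℚ} {M J J' : Submodule K V} (h : IsJ φ μ M J) (h' : IsJ φ μ M J') : J = J' := by
  have e : fmu φ μ J' = fmu φ μ J := le_antisymm (h.mx J' h'.le) (h'.mx J h.le)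
  exact le_antisymm (h'.top J h.le e.symm) (h.top J' h'.le e)

lemma exists_J (hDSP : T_DSP) (hHNE : T_HNE) {k K : Type} [Field k] [IsAlgClosed k] [CharZero k]
    [Field K] [Algebra k K] [Algebra.EssFiniteType k K] (htr : Algebra.trdeg k K = 1) (n m : ℕ)
    (x : Fin (n + 1) → K) {μ : ℚ} (hμ : 0 ≤ μ) : ∃ J, IsJ (dS k n m) μ (Md m x) J := by
  obtain ⟨-, -, h3, h4, -, -⟩ := hDSP k K htr n m
  have : FiniteDimensional K ↥(Md m x) := fin_of_le (Md_le m x)
  exact hHNE K _ (Md m x) (dS k n m) μ hμ (fun U _ => h3 U) fun U hU U' hU' =>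
    h4 U (hU.trans (Md_le m x)) U' (hU'.trans (Md_le m x))

section

variable {k K : Type} [Field k] [Field K] [Algebra k K] {n : ℕ}

lemma eval_lin' (y z : Fin (n + 1) → K) : eval y (lin z) = ∑ j, z j * y j := by
  unfold lin
  rw [map_sum]
  refine Finset.sum_congr rfl fun j _ => ?_
  rw [map_mul, eval_C, eval_X]

lemma lin_ne_zero {z : Fin (n + 1) → K} (hz : z ≠ 0) : lin z ≠ 0 := by
  classical
  intro h
  apply hz
  funext i
  have h1 := eval_lin' (Pi.single i (1 : K)) z
  rw [h, map_zero, Finset.sum_eq_single i] at h1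
  · rw [Pi.single_eq_same, mul_one] at h1
    rw [← h1]
    rfl
  · intro j _ hj
    rw [Pi.single_eq_of_ne hj, mul_zero]
  · simp

lemma el_sum {m : ℕ} (ll : Fin (m + 1) → Fin (n + 1) → k) (c : Fin (m + 1) → k)
    (x : Fin (n + 1) → K) :
    el (∑ i, c i • ll i) x = ∑ i, algebraMap k K (c i) * el (ll i) x := by
  unfold Pool.Agent.H30.EE.el
  simp only [Finset.mul_sum]
  rw [Finset.sum_comm]
  refine Finset.sum_congr rfl fun j _ => ?_
  rw [Finset.sum_apply, map_sum, Finset.sum_mul]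
  refine Finset.sum_congr rfl fun i _ => ?_
  rw [Pi.smul_apply, smul_eq_mul, map_mul, mul_assoc]

lemma el_zero (x : Fin (n + 1) → K) : el (0 : Fin (n + 1) → k) x = 0 := by
  unfold Pool.Agent.H30.EE.el
  refine Finset.sum_eq_zero fun i _ => ?_
  rw [Pi.zero_apply, map_zero, zero_mul]

lemma hF_const (hHG : T_HG) [IsAlgClosed k] [CharZero k] [Algebra.EssFiniteType k K]
    (htr : Algebra.trdeg k K = 1) (d : ℕ) (G : MvPolynomial (Fin (n + 1)) k) :
    hF k d (up K G) = 0 := by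
  obtain ⟨-, -, -, h4, -⟩ := hHG k K htr (Mon (n + 1) d) (fun M => coeff (fs M.1) (up K G))
  have h5 := h4 fun M => coeff (fs M.1) G
  unfold hF
  rw [← h5]
  congr 1

end

theorem pf_PP3 (hHG : T_HG) (hDSP : T_DSP) (hHNE : T_HNE) (hJCO : T_JCO) (hP3A : T_P3A)
    (hP3B : T_P3B) (hCOM : T_COM) (hLPA : T_LPA) (hLPB : T_LPB) : T_PP3 := by
  intro k K _ _ _ _ _ _ htr n a d B x μ hpos hB hBa had hμ h1 J hJ h2
  -- `x` is not zero
  have hx : x ≠ 0 := by
    rintro rfl
    obtain ⟨-, -, -, h4, -⟩ := hHG k K htr (Fin (n + 1)) (0 : Fin (n + 1) → K)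
    have h5 := h4 (0 : Fin (n + 1) → k)
    have h6 : (fun i => algebraMap k K ((0 : Fin (n + 1) → k) i)) = (0 : Fin (n + 1) → K) := by
      funext i
      exact map_zero _
    rw [h6] at h5
    omega
  have ha1 : 1 ≤ a := by omega
  choose Jm hJm using fun m : ℕ => exists_J hDSP hHNE (k := k) htr n m x hμ.le
  have hJd : Jm d = J := IsJ_unique (hJm d) hJ
  have hdim : (Module.finrank K ↥(Md d x) : ℚ) + 1 = Module.finrank K ↥(Sd K n d) := by
    obtain ⟨-, -, -, -, -, h6⟩ := hDSP k K htr n d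
    exact_mod_cast (h6 x hx).2
  have hnum : μ + (2 * a - 2) * hgt k x <
      μ * ((Module.finrank K (Sd K n d) : ℚ) - Module.finrank K (Jm d)) := by
    rw [hJd, ← hdim]
    have : μ * ((Module.finrank K ↥(Md d x) : ℚ) + 1 - Module.finrank K ↥J) =
      μ + μ * ((Module.finrank K ↥(Md d x) : ℚ) - Module.finrank K ↥J) := by ring
    rw [this]
    linarith
  have hA := hP3A k K htr n a d x μ Jm hx hμ hJm ha1 had hnum
  have hPB := hP3B k K htr n (2 * a - 2) x hx (Jm (2 * a - 1))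
  have e : 2 * a - 2 + 1 = 2 * a - 1 := by omega
  rw [e] at hPB
  obtain ⟨l0, l1, hl0, hmax, hl1, hh⟩ := hPB ((hJm _).le.trans (Md_le _ _)) hA
  refine ⟨l0, l1, hl0, hh, fun l => ?_⟩
  have hy : ∀ i : Fin 3, (![el l0 x, el l1 x, el l x] : Fin 3 → K) i =
      el ((![l0, l1, l] : Fin 3 → Fin (n + 1) → k) i) x := by
    intro i
    fin_cases i <;> rfl
  by_cases hli : LinearIndependent k (![l0, l1, l] : Fin 3 → Fin (n + 1) → k)
  · -- the general case
    have hyne : (![el l0 x, el l1 x, el l x] : Fin 3 → K) ≠ 0 := by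
      intro h
      exact hl0 (congrFun h 0)
    have hhy : hgt k (![el l0 x, el l1 x, el l x] : Fin 3 → K) = hgt k x := by
      apply le_antisymm
      · obtain ⟨-, -, -, -, -, -, -, h8⟩ := hHG k K htr (Fin (n + 1)) x
        have h9 := h8 (Fin 3) (Matrix.of (![l0, l1, l] : Fin 3 → Fin (n + 1) → k))
        have h10 : Matrix.mulVec ((Matrix.of (![l0, l1, l] : Fin 3 → Fin (n + 1) → k)).map
            (algebraMap k K)) x = ![el l0 x, el l1 x, el l x] := by
          funext i
          rw [hy i]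
          rfl
        rw [h10] at h9
        exact h9 hyne
      · obtain ⟨-, -, -, -, -, -, -, h8⟩ := hHG k K htr (Fin 3)
          (![el l0 x, el l1 x, el l x] : Fin 3 → K)
        have h9 := h8 (Fin 2) !![1, 0, 0; 0, 1, 0]
        have h10 : Matrix.mulVec ((!![1, 0, 0; 0, 1, 0] : Matrix (Fin 2) (Fin 3) k).map
            (algebraMap k K)) ![el l0 x, el l1 x, el l x] = ![el l0 x, el l1 x] := by
          funext i
          fin_cases i <;> simp [Matrix.mulVec, dotProduct, Fin.sum_univ_three]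
        rw [h10, hh] at h9
        refine h9 ?_
        intro h
        exact hl0 (congrFun h 0)
    obtain ⟨JL, hJL⟩ := exists_J hDSP hHNE (k := k) htr 2 a
      (![el l0 x, el l1 x, el l x] : Fin 3 → K) hμ.le
    have hJL0 : JL ≠ ⊥ := by
      intro h
      have h3 := hJCO k K htr 2 a _ μ JL hyne hμ.le hJL
      rw [h, finrank_bot, hhy, Pool.Agent.H79.EE.finrank_homog, Pool.Agent.H79.EE.choose_two,
        Nat.cast_zero, sub_zero] at h3
      have h4 : μ * (((a : ℚ) + 2) * (a + 1) / 2) <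
          μ * (a * (B + 1) - (B + 1) * (B - 2) / 2) := by
        have h5 : μ * (a * (B + 1) - (B + 1) * (B - 2) / 2) =
          μ + μ * ((a : ℚ) * (B + 1) - (B + 1) * (B - 2) / 2 - 1) := by ring
        rw [h5]
        linarith
      have h6 := lt_of_mul_lt_mul_left h4 hμ.le
      have h7 : (2 : ℚ) * B + 2 ≤ a := by exact_mod_cast hBa
      have h8 : (1 : ℚ) ≤ B := by exact_mod_cast hB
      nlinarith [mul_nonneg (by linarith : (0 : ℚ) ≤ a) (by linarith : (0 : ℚ) ≤ a - 2 * B - 2),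
        mul_nonneg (by linarith : (0 : ℚ) ≤ B) (by linarith : (0 : ℚ) ≤ B - 1)]
    obtain ⟨p, hp, hdvd⟩ := hCOM k K htr n a x μ (Jm a) (Jm (2 * a - 1)) l0 l1 l hx ha1 (hJm a)
      (hJm _) hmax hl1 hli JL hJL0 hJL
    obtain ⟨b, hb1, hba, hph, hev, hJLe, -⟩ := hLPA k K htr 2 a _ μ JL (by norm_num) hyne hJL0 hJL
      p hp hdvd
    have hJL' := hJL
    rw [hJLe] at hJL'
    have h1' := h1
    rw [← hhy] at h1'
    obtain ⟨hbB, hbd⟩ := hLPB k K htr a b B _ μ p hyne hb1 hba hBa hμ hph hp.ne_zero hJL' h1'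
    refine ⟨b, p, hbB, hp.ne_zero, hph, ?_, hev⟩
    rw [hhy] at hbd
    exact hbd
  · -- `l` is a combination of `l0` and `l1`
    obtain ⟨c, hc, i, hi⟩ := Fintype.not_linearIndependent_iff.1 hli
    have hcK : ul K c ≠ 0 := by
      intro h
      apply hi
      have h3 : algebraMap k K (c i) = 0 := congrFun h i
      exact (map_eq_zero _).1 h3
    refine ⟨1, lin (n := 2) (ul K c), hB, lin_ne_zero hcK, isHomogeneous_lin _, ?_, ?_⟩
    · rw [lin_up, hF_const hHG htr, mul_zero]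
      omega
    · rw [eval_lin']
      have h4 := el_sum (K := K) (m := 2) (![l0, l1, l] : Fin 3 → Fin (n + 1) → k) c x
      rw [hc, el_zero] at h4
      rw [h4]
      refine Finset.sum_congr rfl fun j _ => ?_
      rw [hy j]
      rfl

end Pool.Agent.H61.EE
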